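import Mathlib
import Pool.Agent.H384R2.Fatou
import Pool.Agent.TH224.SC.Defs
import Pool.Agent.R237.Ann
import Pool.Agent.R237.Sing2

/-!
A multiply connected wandering domain with infinite inner connectivity which has uncountably many
singleton complementary components.

The function is `f(z) = z ∏ (1 + (z / 2r_m)^{k_m}) (1 - (z / 200r_m)^2)` with rapidly growing `r_m` and
`k_m`.  The zeros `± 200 r_m` have tiny neighbourhoods which `f` expands and maps onto a disc that
contains the two next such neighbourhoods; points that stay in them along their orbit are singleton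
complementary components.
-/

set_option autoImplicit false

namespace Pool.Agent.Results.MP_571b65_an.UncountablySingletons

open Set Pool.Agent.H384R2.Fatou Pool.Agent.TH224.SC Pool.Agent.R237

/-- **Q1 has a positive answer.** There are a transcendental entire function `f` and a Fatou
component `U` of `f` which is a bounded, multiply connected wandering domain (with `f^n(U)` a Fatou
component for every `n`), has infinite inner connectivity, and has uncountably many complementary
components that consist of one point. -/
theorem result : ∃ (f : ℂ → ℂ) (U : Set ℂ),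
    TransEntire f ∧
    (∃ p ∈ FatouSet f, U = FatouComponent f p) ∧
    IsWanderingDomain f U ∧
    Bornology.IsBounded U ∧
    (∀ n : ℕ, ∃ p ∈ FatouSet f, f^[n] '' U = FatouComponent f p) ∧
    (∃ x ∈ Uᶜ, Bornology.IsBounded (connectedComponentIn Uᶜ x)) ∧
    InfInner f U ∧
    ¬ {x : ℂ | x ∈ Uᶜ ∧ connectedComponentIn Uᶜ x = {x}}.Countable := by
  have h := Sing.ann
  refine ⟨Sing.f, Ann.U Sing.f Sing.s 0, Sing.trans, ⟨_, h.pt_F 0, rfl⟩, h.wandering, ?_, ?_, ?_,
    Sing.infInner, Sing.uncountable_single⟩
  · refine (Metric.isBounded_ball (x := (0 : ℂ)) (r := Sing.s (0 + 1) + 1)).subset ?_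
    intro z hz
    rw [mem_ball_zero_iff]
    exact h.U_bdd 0 z hz
  · intro n
    exact ⟨_, h.pt_F n, h.U_iter n⟩
  · obtain ⟨x, hx⟩ := Sing.itinerary (fun _ => true)
    obtain ⟨h1, h2⟩ := Sing.single hx
    refine ⟨x, h1, ?_⟩
    rw [h2]
    exact Bornology.isBounded_singleton

end Pool.Agent.Results.MP_571b65_an.UncountablySingletons
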